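import Pool.Agent.W5h46.GV.Fam

/-!
# Gamma values, digamma values and Hurwitz zeta values at affine forms in several variables

For rational numbers `x_1, …, x_n` and linear forms `ℓ_i` with integral coefficients the values `Γ(ℓ_i(x))` are the
building blocks of periods: the values of the Beta function `B(ℓ(x), ℓ'(x)) = ∫_0^1 t^(ℓ(x)-1) (1-t)^(ℓ'(x)-1) dt`, of the
integrals of Dirichlet and Selberg, and in general all products `∏ Γ(ℓ_i(x))^(m_i)` with `∑ m_i ℓ_i = 0` are quotients of
products of periods (of Fermat varieties, whose degree is the common denominator of the `x_j`). The derivatives of these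
functions of `x`, for instance `∫_0^1 t^(x-1) (1-t)^(y-1) (log t)^a (log (1-t))^b dt`, are polynomials in these products
and in the periods `ψ(ℓ_i(x)) + γ` and `ζ(k, ℓ_i(x)) = ∑_{m ≥ 0} 1 / (m + ℓ_i(x))^k`, `k ≥ 2`.

We show that all the numbers `Γ(ℓ_i(x) + s_i)`, `ψ(ℓ_i(x) + s_i) + γ`, `ζ(k, ℓ_i(x) + s_i)`, `2 ≤ k ≤ w`, for finitely many
forms `ℓ_i` and complex numbers `s_i` such that any two of the forms are not proportional, or equal with shifts `s_i` which
do not differ by an integer, satisfy no polynomial relation of bounded degree, not even approximately and relative to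
arbitrary constants (for instance other periods), for all `x` of height at most `T` with coordinates in a number field of
bounded degree which are not on `C T^ε` exceptional hypersurfaces of bounded degree. In particular there are at most
`C T^ε |S|^(n-1)` exceptional `x` in `S^n`, for every finite set `S` of numbers of height at most `T`.

The starting results on gamma values (`MP_c2409d_nt.FermatRelative`) and my results on Mellin transforms, Hurwitz and Lerch
zeta values concern functions of one variable; there are no linear forms and no gamma values together with their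
logarithmic derivatives.

The proof uses the general theorem of the starting files on functions of several variables which are locally algebraically
independent (`Pool.Agent.Y890.MV.nfM`). New is the independence of the functions, a theorem of the type of Hölder's theorem
in several variables. It is reduced to generic lines with an integral direction, on which the functions satisfy difference
equations of the first order. For the additive and the multiplicative equations together
(`Pool.Agent.W5h46.GV.mixed`): a relation with the least number of monomials in the multiplicative solutions gives, in the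
factorial ring of polynomials in the additive solutions, a quotient of two eigenvectors of the shift; eigenvectors are
constant, because otherwise partial derivatives lead to a linear one; and then the zeros and poles of the coefficients,
which on a generic line lie in different cosets of the integers, give a contradiction.
-/

set_option autoImplicit false

open NumberField Filter Topology

namespace Pool.Agent.Results.MP_1eadae_ag.GammaFamilies

/-- the affine form `∑ L_j x_j + s` -/
def form {n : ℕ} (L : Fin n → ℤ) (s : ℂ) (x : Fin n → ℂ) : ℂ := ∑ j, (L j : ℂ) * x j + s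

/-- `ψ(z) + γ` for `k = 0`, and the Hurwitz zeta value `ζ(k + 1, z) = ∑_m 1 / (m + z)^(k+1)` for `k ≥ 1` -/
noncomputable def H (k : ℕ) (z : ℂ) : ℂ :=
  if k = 0 then Complex.digamma z + Real.eulerMascheroniConstant else ∑' m : ℕ, 1 / ((m : ℂ) + z) ^ (k + 1)

/-- The numbers `Γ(ℓ_i(x) + s_i)` and `ψ(ℓ_i(x) + s_i) + γ`, `ζ(2, ℓ_i(x) + s_i)`, …, `ζ(w, ℓ_i(x) + s_i)`. -/
noncomputable def numbers {n : ℕ} {I : Type} {w : ℕ} (L : I → Fin n → ℤ) (s : I → ℂ) (x : Fin n → ℂ)
    (y : I ⊕ (I × Fin w)) : ℂ :=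
  Sum.elim (fun i => Complex.Gamma (form (L i) (s i) x)) (fun y : I × Fin w => H y.2 (form (L y.1) (s y.1) x)) y

/-- Any two of the forms are not proportional with a positive factor, or equal with shifts which do not differ by an
integer. -/
def Apart {n : ℕ} {I : Type} (L : I → Fin n → ℤ) (s : I → ℂ) : Prop :=
  ∀ i i', i ≠ i' → (∀ a b : ℕ, 0 < a → 0 < b → ∃ j, (a : ℤ) * L i j ≠ b * L i' j) ∨
    (L i = L i' ∧ ∀ m : ℤ, s i - s i' ≠ m)

/-- The element `x` of `F` is a quotient of integers all of whose conjugates have absolute value at most `T`. -/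
def HeightLe (F : Type) [Field F] [NumberField F] (T : ℝ) (x : F) : Prop :=
  ∃ a b : 𝓞 F, b ≠ 0 ∧ (∀ φ : F →+* ℂ, ‖φ a‖ ≤ T ∧ ‖φ b‖ ≤ T) ∧ x = a / b

/-- The polynomials of degree at most `d` in each variable, all of whose coefficients are of the form `∑ ξ_i ι(c_i)`, where
the `c_i` are integers of the number field `F` all of whose conjugates have absolute value at most `M`. -/
def Admissible {σ : Type} {g : ℕ} (F : Type) [Field F] [NumberField F] (ι : F →+* ℂ) (ξ : Fin g → ℂ) (d : ℕ) (M : ℝ)
    (P : MvPolynomial σ ℂ) : Prop :=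
  (∀ y, P.degreeOf y ≤ d) ∧
    ∀ s, ∃ c : Fin g → 𝓞 F, (∀ i (φ : F →+* ℂ), ‖φ (c i)‖ ≤ M) ∧ P.coeff s = ∑ i, ξ i * ι (c i)

/-- The complex numbers `v` are good: every admissible polynomial takes at them a value which is at least `δ` times each of
its coefficients. -/
def Good {σ : Type} {g : ℕ} (F : Type) [Field F] [NumberField F] (ι : F →+* ℂ) (ξ : Fin g → ℂ) (d : ℕ)
    (M δ : ℝ) (v : σ → ℂ) : Prop :=
  ∀ P : MvPolynomial σ ℂ, Admissible F ι ξ d M P → ∀ s, δ * ‖P.coeff s‖ ≤ ‖MvPolynomial.aeval v P‖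

/-- The points `x` of `K` with coordinates in `F` of height at most `T` for which the numbers are not good. -/
def Bad {n g : ℕ} {I : Type} (w : ℕ) (L : I → Fin n → ℤ) (s : I → ℂ) (K : Set (Fin n → ℂ)) (F : Type) [Field F]
    [NumberField F] (ι : F →+* ℂ) (ξ : Fin g → ℂ) (d : ℕ) (T A B : ℝ) : Set (Fin n → F) :=
  {x | (∀ j, HeightLe F T (x j)) ∧ (fun j => ι (x j)) ∈ K ∧
    ¬ Good F ι ξ d (T ^ A) (T ^ (-B)) (fun y : I ⊕ (I × Fin w) => numbers L s (fun j => ι (x j)) y)}

/-- The sums `∑_{j ∈ S} x_j`, over all nonempty sets `S`, are an example of forms `ℓ_i`; with them one obtains all values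
`B(∑_{j ∈ S} x_j, ∑_{j ∈ S'} x_j)` of the Beta function for disjoint `S`, `S'`, and Dirichlet's integrals. -/
theorem subsetSums (n : ℕ) (s : {S : Finset (Fin n) // S.Nonempty} → ℂ) :
    Apart (fun S : {S : Finset (Fin n) // S.Nonempty} => fun j => if j ∈ S.1 then 1 else 0) s ∧
      ∀ S : {S : Finset (Fin n) // S.Nonempty}, 0 < ∑ j, (if j ∈ S.1 then (1 : ℤ) else 0) * 1 := by
  classical
  refine ⟨fun S S' h => Or.inl fun a b ha hb => ?_, fun S => ?_⟩
  · by_contra hcon
    push Not at hcon
    apply h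
    apply Subtype.ext
    ext j
    have h1 := hcon j
    by_cases h2 : j ∈ S.1 <;> by_cases h3 : j ∈ S'.1
    · simp [h2, h3]
    · simp only [h2, h3, if_true, if_false, mul_one, mul_zero] at h1
      omega
    · simp only [h2, h3, if_true, if_false, mul_one, mul_zero] at h1
      omega
    · simp [h2, h3]
  · simp only [mul_one, Finset.sum_boole]
    have h1 : (Finset.univ.filter fun j => j ∈ S.1) = S.1 := by
      ext j
      simp
    rw [h1]
    exact_mod_cast S.2.card_pos

/-- Let `ℓ_i`, `i ∈ I`, be finitely many linear forms in `n ≥ 1` variables with integral coefficients which take positive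
values at some integral point, and `s_i` complex numbers, such that any two of the forms are not proportional, or equal with
`s_i` which do not differ by an integer. Let `K` be a compact set of points `x` with `Re (ℓ_i(x) + s_i) > 0` for all `i`. For
all `w`, `m`, `g`, `d`, `A` and `ε > 0` there are `D`, `B`, `C`, `T₀` such that for every number field `F` of degree at most
`m`, every embedding `ι` of `F`, all complex numbers `ξ_1, …, ξ_g` and all `T ≥ T₀`: the points of `F^n` of height at most
`T` in `K` for which the numbers `Γ(ℓ_i(x) + s_i)`, `ψ(ℓ_i(x) + s_i) + γ`, `ζ(k, ℓ_i(x) + s_i)`, `2 ≤ k ≤ w`, `i ∈ I`, are not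
good lie on at most `C T^ε` hypersurfaces of degree at most `D`, and for every finite set `S` of elements of `F` at most
`C T^ε |S|^(n-1)` of them have all coordinates in `S`. -/
theorem result (n w m g d : ℕ) (hn : 0 < n) {I : Type} [Fintype I] (L : I → Fin n → ℤ) (s : I → ℂ) (hLs : Apart L s)
    (v : Fin n → ℤ) (hv : ∀ i, 0 < ∑ j, L i j * v j) (K : Set (Fin n → ℂ)) (hK : IsCompact K)
    (hKs : ∀ x ∈ K, ∀ i, 0 < (form (L i) (s i) x).re) (A ε : ℝ) (hε : 0 < ε) :
    ∃ (D : ℕ) (B C T₀ : ℝ), ∀ (F : Type) [Field F] [NumberField F], Module.finrank ℚ F ≤ m →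
      ∀ (ι : F →+* ℂ) (ξ : Fin g → ℂ) (T : ℝ), T₀ ≤ T →
        (∃ Φ : Finset (MvPolynomial (Fin n) ℂ), (Φ.card : ℝ) ≤ C * T ^ ε ∧ (∀ P ∈ Φ, P ≠ 0 ∧ P.totalDegree ≤ D) ∧
          ∀ x ∈ Bad w L s K F ι ξ d T A B, ∃ P ∈ Φ, MvPolynomial.eval (fun j => ι (x j)) P = 0) ∧
        ∀ S : Finset F, ({x | x ∈ Bad w L s K F ι ξ d T A B ∧ ∀ j, x j ∈ S}.ncard : ℝ) ≤
          C * T ^ ε * (S.card : ℝ) ^ (n - 1) := by
  classical
  have : Nonempty (Fin n) := ⟨⟨0, hn⟩⟩
  set f : I ⊕ (I × Fin w) → (Fin n → ℂ) → ℂ := fun y => W5h46.GV.fn L s y with hf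
  have hKU : K ⊆ W5h46.GV.UU L s := fun x hx i => hKs x hx i
  have hnum : ∀ (x : Fin n → ℂ) (y : I ⊕ (I × Fin w)), numbers L s x y = f y x := by
    intro x y
    rcases y with i | y
    · rfl
    · simp only [numbers, hf, W5h46.GV.fn, Sum.elim_inr, H, W5h46.GV.pg, W5h46.HL.dgm, W5h46.HL.hz]
      rfl
  obtain ⟨D, B, C, T₀, hC, hT₀, hcov⟩ := Y890.MV.nfM Y890.MV.stmZ Y890.MV.stmClose Y890.MV.stmCharts m f K hK
    (fun y t ht => W5h46.GV.fn_an L s y t (hKU ht))
    (fun t ht => W5h46.GV.fam_locInd L s hLs v hv w t (hKU ht)) (Fin g) d A ε hε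
  refine ⟨D, B, C * (D + 1), T₀, fun F _ _ hF ι ξ T hT => ?_⟩
  have hT0 : 0 < T := by linarith
  have hTe : 0 < T ^ ε := Real.rpow_pos_of_pos hT0 ε
  have hCT : 0 ≤ C * T ^ ε := mul_nonneg hC hTe.le
  have hD1 : (1 : ℝ) ≤ D + 1 := by
    have : (0 : ℝ) ≤ D := Nat.cast_nonneg _
    linarith
  have hcov' : Y124.Cov D ⌊C * T ^ ε⌋₊ ((fun (x : Fin n → F) j => ι (x j)) '' Bad w L s K F ι ξ d T A B) := by
    refine (hcov F hF ι ξ T hT).mono le_rfl le_rfl ?_
    rintro _ ⟨x, ⟨hx1, hx2, hx3⟩, rfl⟩
    have hht : ∀ j, Y120.HtLe F T (x j) := by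
      intro j
      obtain ⟨a, b, hb, h1, h2⟩ := hx1 j
      refine ⟨a, b, hb, ?_, ?_, h2⟩
      · rw [house, pi_norm_le_iff_of_nonneg hT0.le]
        exact fun φ => (h1 φ).1
      · rw [house, pi_norm_le_iff_of_nonneg hT0.le]
        exact fun φ => (h1 φ).2
    refine ⟨hx2, x, hht, rfl, ?_⟩
    unfold Good at hx3
    push Not at hx3
    obtain ⟨P, ⟨hP1, hP2⟩, s₀, hs₀⟩ := hx3
    have hne : P.coeff s₀ ≠ 0 := by
      intro h0
      rw [h0, norm_zero, mul_zero] at hs₀
      exact absurd hs₀ (not_lt.2 (norm_nonneg _))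
    refine Y890.MV.relK_of_poly1 F ι ξ (fun y => f y fun j => ι (x j)) (T ^ A) (T ^ (-B)) P hP1 hP2 s₀ hne ?_
    simp only [hnum] at hs₀
    exact hs₀.le
  constructor
  · obtain ⟨Φ, h1, h2, h3⟩ := hcov'
    refine ⟨Φ, ?_, h2, fun x hx => h3 _ ⟨x, hx, rfl⟩⟩
    have h4 : (Φ.card : ℝ) ≤ ⌊C * T ^ ε⌋₊ := by exact_mod_cast h1
    refine (h4.trans (Nat.floor_le hCT)).trans ?_
    nlinarith
  · intro S
    have h1 : Y124.Cov D ⌊C * T ^ ε⌋₊ ((fun (x : Fin n → F) j => ι (x j)) ''
        {x | x ∈ Bad w L s K F ι ξ d T A B ∧ ∀ j, x j ∈ S}) :=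
      hcov'.mono le_rfl le_rfl (Set.image_mono fun x hx => hx.1)
    obtain ⟨_, h2⟩ := Y890.MV.cov_count ι (S : Set F) S.finite_toSet _ (fun x hx j => hx.2 j) h1
    rw [Fintype.card_fin, Set.ncard_coe_finset] at h2
    have h3 : ({x | x ∈ Bad w L s K F ι ξ d T A B ∧ ∀ j, x j ∈ S}.ncard : ℝ) ≤
        (⌊C * T ^ ε⌋₊ : ℝ) * (D * (S.card : ℝ) ^ (n - 1)) := by exact_mod_cast h2
    refine h3.trans ?_
    have h4 : (0 : ℝ) ≤ (S.card : ℝ) ^ (n - 1) := by positivity
    have h5 : (D : ℝ) * (S.card : ℝ) ^ (n - 1) ≤ (D + 1) * (S.card : ℝ) ^ (n - 1) :=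
      mul_le_mul_of_nonneg_right (by linarith) h4
    calc (⌊C * T ^ ε⌋₊ : ℝ) * (D * (S.card : ℝ) ^ (n - 1)) ≤ C * T ^ ε * ((D + 1) * (S.card : ℝ) ^ (n - 1)) :=
          mul_le_mul (Nat.floor_le hCT) h5 (by positivity) hCT
      _ = _ := by ring

end Pool.Agent.Results.MP_1eadae_ag.GammaFamilies
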