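import Pool.Agent.W5h35.IC.Sup
import Pool.Agent.W5h35.IC.Val2
import Pool.Agent.W5h35.IC.Wtup

/-!
# Iterated integrals on arbitrary algebraic curves: all polynomial relations, at algebraic points

Let `C` be an algebraic curve over `ℚ` with the function field `ℚ(x, y)`, let `p` be a rational point of `C` over
`x = 0`, and let `ω_1, …, ω_s` be differential forms on `C` (of any kind, with poles anywhere outside the fibre
over `x = 0`) which are linearly independent over `ℚ` modulo exact forms; put `ω_0 = dx / x`.  The iterated integrals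

`I_w(α) = ∫_p^(q_α) ω_(w_1) ω_(w_2) ⋯ ω_(w_l)`,  `w_l ≠ 0`,

from `p` to the point `q_α` over `x = 1 / α` on the branch through `p`, together with `log α = - ∫ ω_0`, are the periods of
the unipotent completion of the fundamental groupoid of `C ∖ {p}` with the tangential base point `d / dx` at `p` (for the
words without `ω_0`: of `C` with the base point `p`).  By path composition the periods for other base points are
polynomials in these and in constants.  Kontsevich's period conjecture says that the polynomial relations between such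
numbers at algebraic points come from geometry; here the expected relations are the shuffle relations
`I_u(α) I_v(α) = ∑ I_w(α)`, the sum over the shuffles `w` of `u` and `v`.

The theorem: let `ξ` be **any algebraic number** of degree at most `m` which is the zero of a polynomial with integral
coefficients of absolute value at most `|ξ|^A`, and let `(H + 2)^E ≤ |ξ|`.  Then for all complex numbers `w_1, …, w_q` there is
a set `S` of **at most `q + 2`** of the numbers `1, …, H` such that for **all** distinct `u_1, …, u_k` in `{1, …, H}` outside `S`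
all polynomial relations of degree at most `δ`, of arbitrary height, between the iterated integrals of length at most
`L` and the logarithms at the `k` points over `x = 1 / (ξ - G u_i)`, with coefficients which are polynomials in
`w_1, …, w_q` over a number field of degree at most `d` (any number field; it may contain the coordinates of the points),
are consequences of the shuffle relations: they hold for all families of complex numbers which satisfy the shuffle
relations.

In `MP_1eadae_ag.Hyperlogarithms` the curve is `ℙ¹`, the points are integers, and the relations are linear with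
coefficients in a given space of constants.

Proof. The functions `y^c I_w`, `w` of length at most `L`, form a G-system; the conditions of Siegel's method are proved
with the ring `ℤ[x, y]`, whose divided derivatives are integral up to powers of the discriminant (Hensel), and the local
conditions at `x = 0` by a solution of Fuchs' form with nilpotent residue.  They are linearly independent over `ℚ(x, y)`,
so that all functional relations are generated by the shuffle relations and the equation of the curve; the variety of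
the shuffle relations is irreducible, since the algebra of the functions `I_w` is a domain.  The theorem of
`Pool.Agent.Y916.Af` (Siegel's method at `1 / ξ` for the shifted functions, and elimination) says that all relations are
specialisations of the functional relations.
-/

set_option autoImplicit false

open PowerSeries

namespace Pool.Agent.Results.MP_1eadae_ag.IteratedIntegralsOnCurves

/-- integer polynomials in `x` as power series with rational coefficients -/
noncomputable def ser : Polynomial ℤ →+* PowerSeries ℚ :=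
  (Polynomial.coeToPowerSeries.ringHom (R := ℚ)).comp (Polynomial.mapRingHom (Int.castRingHom ℚ))

/-- The power series `F(x, y(x))` for a polynomial `F ∈ ℤ[x][Y]`. -/
noncomputable def plug (y : PowerSeries ℚ) (F : Polynomial (Polynomial ℤ)) : PowerSeries ℚ := F.eval₂ ser y

/-- the value at `x = 0` of an integer polynomial, as a rational number -/
noncomputable def fibre : Polynomial ℤ →+* ℚ := (Int.castRingHom ℚ).comp (Polynomial.evalRingHom 0)

/-- An algebraic curve over `ℚ` with a rational point `p` over `x = 0` and `s` differential forms. -/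
structure Curve where
  /-- the equation `P(x, Y) = 0`, a polynomial in `Y` over `ℤ[x]` -/
  P : Polynomial (Polynomial ℤ)
  /-- it is monic in `Y` -/
  monic : P.Monic
  /-- it is irreducible -/
  irreducible : Irreducible P
  /-- the fibre over `x = 0` is unramified: `P(0, Y)` has only simple roots -/
  unramified : (P.map fibre).Separable
  /-- the function `y` near the rational point `p = (0, y(0))`, as a power series in `x` -/
  y : PowerSeries ℚ
  /-- the equation of the curve -/
  root : plug y P = 0
  /-- the number of the differential forms -/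
  s : ℕ
  /-- the common denominator of the forms -/
  g : Polynomial ℤ
  /-- the numerators of the forms -/
  H : Fin s → Polynomial (Polynomial ℤ)
  /-- the forms have no poles over `x = 0` -/
  g_ne : g.coeff 0 ≠ 0
  /-- the forms `ω_j dx = (H_j(x, y) / g(x)) dx`, as power series in `x` -/
  ω : Fin s → PowerSeries ℚ
  /-- the definition of the forms -/
  ω_eq : ∀ j, ser g * ω j = plug y (H j)
  /-- No nontrivial rational combination of the forms is exact: if the derivative of a function `f = F(x, y) / Q(x)` on
  the curve is a linear combination of the `ω_j` then it is the trivial one. -/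
  independent : ∀ (c : Fin s → ℚ) (f : PowerSeries ℚ) (Q : Polynomial ℤ) (F : Polynomial (Polynomial ℤ)), Q ≠ 0 →
    ser Q * f = plug y F → PowerSeries.derivative ℚ f = ∑ j, PowerSeries.C (c j) * ω j → ∀ j, c j = 0

/-- the value at the complex number `x` of a power series -/
noncomputable def val (f : PowerSeries ℚ) (x : ℂ) : ℂ := ∑' m : ℕ, ((coeff m f : ℚ) : ℂ) * x ^ m

/-- The iterated integral of a word along the segment from `0` to `x` (along the branch through `p`).  The letters are
`none`, the form `dx / x`, and `some j`, the form `ω_j dx`; the first letter is the outermost integration. -/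
noncomputable def iter (C : Curve) : List (Option (Fin C.s)) → ℂ → ℂ
  | [] => fun _ => 1
  | none :: w => fun x => ∫ s in (0 : ℝ)..1, iter C w (s * x) / s
  | some j :: w => fun x => ∫ s in (0 : ℝ)..1, val (C.ω j) (s * x) * iter C w (s * x) * x

/-- the words for which the iterated integral converges: the last letter is not `dx / x` -/
def Admissible {s : ℕ} (w : List (Option (Fin s))) : Prop := w.getLast? ≠ some none

/-- the admissible words of length at most `L` -/
abbrev Word (C : Curve) (L : ℕ) : Type := {w : List (Option (Fin C.s)) // w.length ≤ L ∧ Admissible w}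

/-- the list of the shuffles of two words (with multiplicities) -/
def shuffles {β : Type} : List β → List β → List (List β)
  | [], v => [v]
  | a :: u, [] => [a :: u]
  | a :: u, b :: v => (shuffles u (b :: v)).map (List.cons a) ++ (shuffles (a :: u) v).map (List.cons b)
termination_by u v => u.length + v.length

/-- A family of complex numbers which satisfies the shuffle relations. -/
def ShuffleFamily {s : ℕ} (γ : List (Option (Fin s)) → ℂ) : Prop :=
  γ [] = 1 ∧ ∀ u v, Admissible u → Admissible v → γ u * γ v = ((shuffles u v).map γ).sum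

/-- The numbers `ℓ_i` and `I_v(α_i)`, for `i = 1, …, k` and the admissible words `v` of length at most `L`. -/
noncomputable def numbers (C : Curve) (L : ℕ) {k : ℕ} (α ℓ : Fin k → ℂ) (a : Fin k × Option (Word C L)) : ℂ :=
  a.2.elim (ℓ a.1) fun v => iter C v.1 (1 / α a.1)

/-- the corresponding members of `k` families `γ_i`, and arbitrary numbers `t_i` instead of the logarithms -/
def generic (C : Curve) (L : ℕ) {k : ℕ} (γ : Fin k → List (Option (Fin C.s)) → ℂ) (t : Fin k → ℂ)
    (a : Fin k × Option (Word C L)) : ℂ :=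
  a.2.elim (t a.1) fun v => γ a.1 v.1

/-- For some logarithms `ℓ_i` of the `α_i` some polynomial of degree at most `δ` over a number field of degree at most `d`
vanishes at the numbers `w_1, …, w_q` and the numbers `ℓ_i`, `I_v(α_i)`, but not at `w_1, …, w_q` and some families of
numbers with the shuffle relations. -/
def Exceptional (C : Curve) (L δ d : ℕ) {q k : ℕ} (w : Fin q → ℂ) (α : Fin k → ℂ) : Prop :=
  ∃ ℓ : Fin k → ℂ, (∀ i, Complex.exp (ℓ i) = α i) ∧
    ∃ K : IntermediateField ℚ ℂ, FiniteDimensional ℚ K ∧ Module.finrank ℚ K ≤ d ∧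
    ∃ Q : MvPolynomial (Fin q ⊕ Fin k × Option (Word C L)) K, Q.totalDegree ≤ δ ∧
      MvPolynomial.aeval (Sum.elim w (numbers C L α ℓ)) Q = 0 ∧
      ∃ (γ : Fin k → List (Option (Fin C.s)) → ℂ) (t : Fin k → ℂ), (∀ i, ShuffleFamily (γ i)) ∧
        MvPolynomial.aeval (Sum.elim w (generic C L γ t)) Q ≠ 0

/-- `ξ` is a zero of a nonzero polynomial of degree at most `m` with integral coefficients of absolute value at most
`|ξ|^A`. -/
def Height (m A : ℕ) (ξ : ℂ) : Prop :=
  ∃ p : Polynomial ℤ, p ≠ 0 ∧ p.natDegree ≤ m ∧ (∀ j, |(p.coeff j : ℝ)| ≤ ‖ξ‖ ^ A) ∧ Polynomial.aeval ξ p = 0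

section proofs

open Pool.Agent.W5h35.IC Pool.Agent.Y113 Pool.Agent.Y120.GF Pool.Agent.Y120.GH

theorem shuffles_eq {β : Type} (n : ℕ) : ∀ u v : List β, u.length + v.length = n → shuffles u v = sh u v := by
  induction n with
  | zero =>
    intro u v h
    have hu : u = [] := List.length_eq_zero_iff.1 (by omega)
    rw [hu, sh_nil_left, shuffles]
  | succ n ih =>
    intro u v h
    rcases u with _ | ⟨a, u⟩
    · rw [sh_nil_left, shuffles]
    rcases v with _ | ⟨b, v⟩
    · rw [sh_nil_right, shuffles]
    rw [List.length_cons, List.length_cons] at h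
    rw [sh_cons, shuffles, ih u (b :: v) (by rw [List.length_cons]; omega), ih (a :: u) v (by rw [List.length_cons]; omega)]

theorem achar_of {s : ℕ} {γ : List (Option (Fin s)) → ℂ} (h : ShuffleFamily γ) : AChar γ := by
  refine ⟨h.1, fun u v hu hv => ?_⟩
  rw [← shuffles_eq _ u v rfl]
  exact h.2 u v hu hv

theorem iter_eq (C : Curve) (w : List (Option (Fin C.s))) : iter C w = JT C.ω w := by
  induction w with
  | nil => rfl
  | cons a w ih =>
    funext x
    rcases a with _ | j
    · show (∫ s in (0 : ℝ)..1, iter C w (s * x) / s) = ∫ s in (0 : ℝ)..1, JT C.ω w (s * x) / s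
      rw [ih]
    · show (∫ s in (0 : ℝ)..1, val (C.ω j) (s * x) * iter C w (s * x) * x) =
        ∫ s in (0 : ℝ)..1, valc (C.ω j) (s * x) * JT C.ω w (s * x) * x
      rw [ih]
      rfl

theorem full (C : Curve) : ∃ Δ : Polynomial ℤ, Full C.P C.y C.g Δ C.ω := by
  obtain ⟨Δ, hT, hD⟩ := dat_of (σ := Fin C.s) C.monic C.root C.unramified C.g_ne (ω := C.ω) fun j => ⟨C.H j, (C.ω_eq j).symm⟩
  refine ⟨Δ, hD, hT, C.monic, C.root, pow_indep C.monic C.irreducible C.root, fun c Q f hQ hf hd => ?_⟩
  obtain ⟨F, hF⟩ := hf
  exact funext fun j => C.independent c f Q F hQ hF.symm hd j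

theorem numbers_eq (C : Curve) : ∃ B : ℕ, ∀ (L k : ℕ) (α ℓ : Fin k → ℂ), (∀ i, (B : ℝ) < ‖α i‖) →
    numbers C L α ℓ = pnt C.ω L α ℓ := by
  obtain ⟨Δ, h⟩ := full C
  obtain ⟨ρ, hρ, -, hω⟩ := h.conv
  obtain ⟨B, hB⟩ := exists_nat_ge ρ
  refine ⟨B, fun L k α ℓ hα => funext fun a => ?_⟩
  obtain ⟨i, v⟩ := a
  rcases v with _ | v
  · rfl
  · show iter C v.1 (1 / α i) = ou (cx (I2 C.ω v.1)) (α i)
    have h1 : ρ < ‖α i‖ := hB.trans_lt (hα i)
    have h2 : 0 < ‖α i‖ := hρ.trans_lt h1
    rw [iter_eq, JT_eq hρ hω v.1 v.2.2]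
    · rfl
    · rw [norm_div, norm_one, one_div, inv_mul_lt_one₀ h2]
      exact h1

theorem exc_of {C : Curve} {B : ℕ} (hB : ∀ (L k : ℕ) (α ℓ : Fin k → ℂ), (∀ i, (B : ℝ) < ‖α i‖) →
    numbers C L α ℓ = pnt C.ω L α ℓ) {L δ d q k : ℕ} {w : Fin q → ℂ} {α : Fin k → ℂ} (hα : ∀ i, (B : ℝ) < ‖α i‖)
    (h : Exceptional C L δ d w α) : Exc C.ω L δ d w α := by
  obtain ⟨ℓ, hℓ, K, hK, hKd, Q, hQ, hQ0, γ, t, hγ, hne⟩ := h
  refine ⟨ℓ, hℓ, K, hK, hKd, Q, hQ, ?_, γ, t, fun i => achar_of (hγ i), hne⟩
  rw [← hB L k α ℓ hα]
  exact hQ0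

/-- Examples: the superelliptic curves `y^N = f(x)`, `f` squarefree of degree `m + 1`, `f(0) ≠ 0`, with the
`(N - 1) m` forms `x^a dx / y^(b + 1)`, `a < m`, `b < N - 1`. -/
theorem superelliptic {N m : ℕ} (hN : 0 < N) {f : Polynomial ℤ} (hf : Squarefree (f.map (Int.castRingHom ℚ)))
    (hm : f.natDegree = m + 1) (hf0 : f.coeff 0 ≠ 0) {y : PowerSeries ℚ} (hy : y ^ N = ser f) :
    ∃ C : Curve, C.P = Polynomial.X ^ N - Polynomial.C f ∧ C.y = y ∧ ∃ e : Fin (N - 1) × Fin m ≃ Fin C.s,
      ∀ i, C.ω (e i) * y ^ ((i.1 : ℕ) + 1) = X ^ (i.2 : ℕ) := by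
  have hy' : y ^ N = ps f := hy
  have hyc : constantCoeff y ≠ 0 := by
    intro h0
    have h1 := congrArg constantCoeff hy'
    rw [map_pow, h0, zero_pow hN.ne', const_ps] at h1
    exact hf0 (by exact_mod_cast h1.symm)
  have hyi : y * y⁻¹ = 1 := PowerSeries.mul_inv_cancel y hyc
  have hω : ∀ i : Fin (N - 1) × Fin m, (X ^ (i.2 : ℕ) * (y⁻¹) ^ ((i.1 : ℕ) + 1)) * y ^ ((i.1 : ℕ) + 1) = X ^ (i.2 : ℕ) := by
    intro i
    rw [mul_assoc, ← mul_pow, mul_comm y⁻¹, hyi, one_pow, mul_one]
  have e := Fintype.equivFin (Fin (N - 1) × Fin m)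
  refine ⟨{
    P := PN N f
    monic := PN_monic hN f
    irreducible := PN_irr hN hf (by omega)
    unramified := PN_sep hN hf0
    y := y
    root := PN_root hy'
    s := Fintype.card (Fin (N - 1) × Fin m)
    g := f
    H := fun j => Polynomial.C (Polynomial.X ^ ((e.symm j).2 : ℕ)) * Polynomial.X ^ (N - 1 - ((e.symm j).1 : ℕ))
    g_ne := hf0
    ω := fun j => X ^ ((e.symm j).2 : ℕ) * (y⁻¹) ^ (((e.symm j).1 : ℕ) + 1)
    ω_eq := fun j => ?_
    independent := fun c F Q G hQ hF hd j => ?_ }, rfl, rfl, e, fun i => ?_⟩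
  · show ps f * _ = evy y _
    have h1 := (e.symm j).1.2
    rw [evy_apply, Polynomial.eval₂_mul, Polynomial.eval₂_C, Polynomial.eval₂_X_pow, psH_apply, ← hy']
    have h2 : ps (Polynomial.X ^ ((e.symm j).2 : ℕ)) = X ^ ((e.symm j).2 : ℕ) := by
      rw [← psH_apply, map_pow, psH_apply]
      simp [ps]
    rw [h2]
    have h3 : y ^ N = y ^ (N - 1 - ((e.symm j).1 : ℕ)) * y ^ (((e.symm j).1 : ℕ) + 1) := by
      rw [← pow_add]
      congr 1
      omega
    calc y ^ N * (X ^ ((e.symm j).2 : ℕ) * (y⁻¹) ^ (((e.symm j).1 : ℕ) + 1))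
        = X ^ ((e.symm j).2 : ℕ) * y ^ (N - 1 - ((e.symm j).1 : ℕ)) * (y * y⁻¹) ^ (((e.symm j).1 : ℕ) + 1) := by
          rw [h3, mul_pow]; ring
      _ = _ := by rw [hyi, one_pow, mul_one]
  · have h1 := sup_exact hN hf hm hy' (ω := fun i => X ^ (i.2 : ℕ) * (y⁻¹) ^ ((i.1 : ℕ) + 1)) hω (fun i => c (e i)) Q F hQ
      ⟨G, hF.symm⟩ (by
        rw [hd]
        exact (Fintype.sum_equiv e _ _ fun i => by rw [Equiv.symm_apply_apply]).symm)
    have h2 := congrFun h1 (e.symm j)
    simpa using h2
  · show X ^ ((e.symm (e i)).2 : ℕ) * (y⁻¹) ^ (((e.symm (e i)).1 : ℕ) + 1) * y ^ ((i.1 : ℕ) + 1) = _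
    rw [Equiv.symm_apply_apply]
    exact hω i

end proofs

/-- **Main result.**  For every curve `C` and every `L` there is `G₀` such that for all `G ≥ G₀` and all `q`, `k`, `m`, `d`,
`δ`, `A` there is `E` such that for all `H`, all algebraic `ξ` with `Height m A ξ` and `(H + 2)^E ≤ |ξ|` and all complex
numbers `w_1, …, w_q` there is a set `S` of at most `q + 2` numbers such that for all distinct `u_1, …, u_k` in `{1, …, H}`
outside `S` the tuple of the `α_i = ξ - G u_i` is not exceptional: all relations of degree at most `δ` between `w_1, …, w_q`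
and the `ℓ_i`, `I_v(α_i)` over all number fields of degree at most `d` are consequences of the shuffle relations. -/
theorem result (C : Curve) (L : ℕ) : ∃ G₀ : ℕ, 1 ≤ G₀ ∧ ∀ G : ℕ, G₀ ≤ G → ∀ q k m d δ A : ℕ, ∃ E : ℕ,
    ∀ (H : ℕ) (ξ : ℂ), ((H : ℝ) + 2) ^ E ≤ ‖ξ‖ → Height m A ξ → ∀ w : Fin q → ℂ, ∃ S : Finset ℕ, S.card ≤ q + 2 ∧
    ∀ u : Fin k → ℕ, Function.Injective u → (∀ i, 1 ≤ u i ∧ u i ≤ H ∧ u i ∉ S) →
      ¬ Exceptional C L δ d w (fun i => ξ - ((G * u i : ℕ) : ℂ)) := by
  obtain ⟨Δ, h⟩ := full C
  obtain ⟨B, hB⟩ := numbers_eq C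
  obtain ⟨G₀, hG₀, hW⟩ := h.windows L
  refine ⟨G₀, hG₀, fun G hG q k m d δ A => ?_⟩
  obtain ⟨E, hE⟩ := hW G hG q k m d δ A
  refine ⟨E + (G + B + 1), fun H ξ hξ hHt w => ?_⟩
  have hH2 : (1 : ℝ) ≤ (H : ℝ) + 2 := by
    have : (0 : ℝ) ≤ H := Nat.cast_nonneg H
    linarith
  obtain ⟨S, hS, hS'⟩ := hE H ξ ((pow_le_pow_right₀ hH2 (by omega)).trans hξ) hHt w
  refine ⟨S, hS, fun u hu hub hexc => ?_⟩
  obtain ⟨ℓ, hℓ, K, hK, hKd, Q, hQ, hQ0, γ, t, hγ, hne⟩ :=
    exc_of hB (fun i => Pool.Agent.W5h35.IC.far le_rfl hξ (hub i).2.1) hexc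
  exact hne (hS' u hu hub ℓ hℓ K hK hKd Q hQ hQ0 γ t hγ)

end Pool.Agent.Results.MP_1eadae_ag.IteratedIntegralsOnCurves
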