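import Pool.Agent.W5h46.MT.Main

/-!
# Mellin transforms of algebraic functions at almost all rational exponents

For an algebraic function `f` (over the field of algebraic numbers) and a rational number `x = p / q` the number
`∫_0^∞ t^(x-1) (log t)^l f(t) dt` is a period; for `l = 0` it is `q ∫_0^∞ s^(p-1) f(s^q) ds`, an integral on the curve which
is obtained from the curve of `f` by adjoining the `q`-th root of `t`. The degree of this cyclic covering, and in general its
genus, grow with the denominator `q` of the exponent `x`: in contrast to the families of varieties of the starting results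
for this problem the periods for different `x` do not belong to the members of one family of varieties. The same is true if
`f` itself is a function given by periods, like `Li_k(λ t)`, and if `f` is zero outside of `(0, 1]`.

We show that for almost all tuples `(x_1, …, x_n)` of rational numbers (or of elements of number fields of bounded degree)
of height at most `T` the numbers `∫_0^∞ t^(x_j-1) (log t)^l f(t) dt` satisfy no polynomial relation of bounded degree, not
even approximately, relative to arbitrary constants, for instance relative to other periods. The only condition on one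
function `f` is that its power series at `0` has infinitely many terms; for several functions `f_1, …, f_r` it is sufficient
that the vectors of their coefficients do not satisfy a (weighted) homogeneous polynomial relation.

The proof uses the general theorems of the starting files on functions of one variable which are locally algebraically
independent (`Pool.Agent.Y771.RP.mainX` and, for sets of small diameter, `Pool.Agent.R349.Gen.shortG`). New is the
independence: the Mellin transform is continued to the left, where it has poles at the integers `-k` with the principal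
parts `(-1)^l l! a_k / (x + k)^(l+1)`, `a_k` the coefficients of `f`; a polynomial relation, multiplied by a power of
`x (x + 1) ⋯ (x + k)`, gives at `x = -k` a homogeneous relation between the coefficients.
-/

set_option autoImplicit false

open NumberField MeasureTheory Filter Topology Asymptotics

namespace Pool.Agent.Results.MP_1eadae_ag.MellinTransforms

/-- `f` is locally integrable on `(0, ∞)`, it is `O(t^(-α))` for `t → ∞`, and for `t → 0` it has the asymptotic expansion
`∑ a_k t^k` (for instance because it is given by this power series near `0`). -/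
structure Admits (α : ℝ) (f : ℝ → ℂ) (a : ℕ → ℂ) : Prop where
  int : LocallyIntegrableOn f (Set.Ioi 0)
  top : f =O[atTop] fun t : ℝ => t ^ (-α)
  zero : ∀ K : ℕ, (fun t : ℝ => f t - ∑ k ∈ Finset.range K, a k * (t : ℂ) ^ k) =O[𝓝[>] 0] fun t : ℝ => t ^ (K : ℝ)

/-- `∫_0^∞ t^(x-1) (log t)^l f(t) dt` -/
noncomputable def M (l : ℕ) (f : ℝ → ℂ) (x : ℂ) : ℂ :=
  ∫ t in Set.Ioi (0 : ℝ), (t : ℂ) ^ (x - 1) * ((Real.log t : ℂ) ^ l * f t)

/-- The coefficient vectors `(a_{1,k}, …, a_{r,k})`, `k = 0, 1, …`, satisfy no relation `P(k, a_{1,k}, …, a_{r,k}) = 0` (for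
all `k`) with a polynomial `P ≠ 0` which is homogeneous in the last `r` variables with the weights `l_i + 1`. -/
def Independent {r : ℕ} (l : Fin r → ℕ) (a : Fin r → ℕ → ℂ) : Prop :=
  ∀ (W : ℕ) (P : MvPolynomial (Option (Fin r)) ℂ), P ≠ 0 →
    P.IsWeightedHomogeneous (fun o : Option (Fin r) => o.elim 0 fun i => l i + 1) W →
    ∃ k : ℕ, MvPolynomial.eval (fun o : Option (Fin r) => o.elim (k : ℂ) fun i => a i k) P ≠ 0

/-- The element `x` of `F` is a quotient of integers all of whose conjugates have absolute value at most `T`. -/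
def HeightLe (F : Type) [Field F] [NumberField F] (T : ℝ) (x : F) : Prop :=
  ∃ a b : 𝓞 F, b ≠ 0 ∧ (∀ φ : F →+* ℂ, ‖φ a‖ ≤ T ∧ ‖φ b‖ ≤ T) ∧ x = a / b

/-- The polynomials of degree at most `d` in each variable, all of whose coefficients are of the form `∑ ξ_i ι(c_i)`, where
the `c_i` are integers of the number field `F` all of whose conjugates have absolute value at most `H`. -/
def Admissible {σ : Type} {g : ℕ} (F : Type) [Field F] [NumberField F] (ι : F →+* ℂ) (ξ : Fin g → ℂ) (d : ℕ) (H : ℝ)
    (P : MvPolynomial σ ℂ) : Prop :=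
  (∀ y, P.degreeOf y ≤ d) ∧
    ∀ s, ∃ c : Fin g → 𝓞 F, (∀ i (φ : F →+* ℂ), ‖φ (c i)‖ ≤ H) ∧ P.coeff s = ∑ i, ξ i * ι (c i)

/-- The complex numbers `v` are good: every admissible polynomial takes at them a value which is at least `δ` times each of
its coefficients. -/
def Good {σ : Type} {g : ℕ} (F : Type) [Field F] [NumberField F] (ι : F →+* ℂ) (ξ : Fin g → ℂ) (d : ℕ)
    (H δ : ℝ) (v : σ → ℂ) : Prop :=
  ∀ P : MvPolynomial σ ℂ, Admissible F ι ξ d H P → ∀ s, δ * ‖P.coeff s‖ ≤ ‖MvPolynomial.aeval v P‖

/-- The number of the tuples `x` in `X_1 × … × X_n` for which the `r n` numbers `M (l j i) (f j i) (x_j)` are not good. -/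
noncomputable def bad {n r g : ℕ} (l : Fin n → Fin r → ℕ) (f : Fin n → Fin r → ℝ → ℂ) (F : Type) [Field F]
    [NumberField F] (ι : F →+* ℂ) (ξ : Fin g → ℂ) (d : ℕ) (H δ : ℝ) (X : Fin n → Finset F) : ℝ :=
  ({x : Fin n → F | (∀ j, x j ∈ X j) ∧
    ¬ Good F ι ξ d H δ (fun z : Fin n × Fin r => M (l z.1 z.2) (f z.1 z.2) (ι (x z.1)))}.ncard : ℝ)

/-- (1) Let `f_{j,i}` (`j = 1, …, n`, `i = 1, …, r`) be functions with asymptotic expansions at `0` and `O(t^(-α))` at
infinity, `α > 0`, such that for every `j` the coefficient vectors of `f_{j,1}, …, f_{j,r}` are independent (for the numbers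
`l_{j,i} ≥ 0`), and let `K` be a compact subset of the strip `0 < Re x < α`. For all `m`, `g`, `d`, `A` and `ε > 0` there are
`B`, `C`, `T₀` such that for every number field `F` of degree at most `m`, every embedding `ι` of `F`, all complex numbers
`ξ_1, …, ξ_g`, all `T ≥ T₀` and all finite sets `X_1, …, X_n` of elements of `F` of height at most `T` with images in `K`:
for all but `C T^ε ∑_j ∏_(i ≠ j) |X_i|` of the tuples `x` of `X_1 × … × X_n` the `r n` numbers
`∫_0^∞ t^(x_j-1) (log t)^(l_{j,i}) f_{j,i}(t) dt` are good; if the sets `X_j` have diameters at most `T^(-ε)` then this is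
true for all but `C ∑_j ∏_(i ≠ j) |X_i|` tuples. (2) The condition of independence for one function: infinitely many of its
coefficients are different from `0`. (3) It is also satisfied for the functions `f(λ_1 t), …, f(λ_r t)` and equal numbers
`l_i`, if almost all coefficients of `f` are different from zero and different products of the `λ_i` of the same length have
different values. -/
theorem result :
    (∀ (n r m g d : ℕ) (l : Fin n → Fin r → ℕ) (f : Fin n → Fin r → ℝ → ℂ) (a : Fin n → Fin r → ℕ → ℂ) (α : ℝ),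
      0 < α → (∀ j i, Admits α (f j i) (a j i)) → (∀ j, Independent (l j) (a j)) →
      ∀ K : Set ℂ, IsCompact K → (∀ x ∈ K, 0 < x.re ∧ x.re < α) → ∀ A ε : ℝ, 0 < ε →
      ∃ B C T₀ : ℝ, ∀ (F : Type) [Field F] [NumberField F], Module.finrank ℚ F ≤ m →
        ∀ (ι : F →+* ℂ) (ξ : Fin g → ℂ) (T : ℝ), T₀ ≤ T → ∀ X : Fin n → Finset F,
          (∀ j, ∀ x ∈ X j, ι x ∈ K ∧ HeightLe F T x) →
          bad l f F ι ξ d (T ^ A) (T ^ (-B)) X ≤ C * T ^ ε * ∑ j, ∏ i ∈ Finset.univ.erase j, ((X i).card : ℝ) ∧
          ((∀ j, ∀ x ∈ X j, ∀ y ∈ X j, ‖ι x - ι y‖ ≤ T ^ (-ε)) →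
            bad l f F ι ξ d (T ^ A) (T ^ (-B)) X ≤ C * ∑ j, ∏ i ∈ Finset.univ.erase j, ((X i).card : ℝ))) ∧
    (∀ (l : Fin 1 → ℕ) (a : Fin 1 → ℕ → ℂ), (∃ᶠ k in atTop, a 0 k ≠ 0) → Independent l a) ∧
    (∀ (r l : ℕ) (b : ℕ → ℂ) (lam : Fin r → ℂ), (∀ᶠ k in atTop, b k ≠ 0) → (∀ i, lam i ≠ 0) →
      (∀ e e' : Fin r → ℕ, ∑ i, e i = ∑ i, e' i → ∏ i, lam i ^ e i = ∏ i, lam i ^ e' i → e = e') →
      Independent (fun _ => l) (fun i k => b k * lam i ^ k)) := by
  refine ⟨?_, W5h46.MT.independent_single, fun r l b lam => W5h46.MT.independent_scaled l b lam⟩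
  intro n r m g d l f a α hα hf hind K hK hKs A ε hε
  have hM : ∀ (l : ℕ) (f : ℝ → ℂ) (x : ℂ), M l f x = mellin (W5h46.MT.lf l f) x := by
    intro l f x
    simp only [M, mellin, W5h46.MT.lf, smul_eq_mul]
  have hloc := fun j => W5h46.MT.locInd (l j) (f j) (a j) α hα
    (fun i => ⟨(hf j i).int, (hf j i).top, (hf j i).zero⟩) (hind j)
  set φ : Fin n → Fin r → ℂ → ℂ := fun j i => mellin (W5h46.MT.lf (l j i) (f j i)) with hφ
  have han : ∀ j y, ∀ t ∈ K, AnalyticAt ℂ (φ j y) t := fun j y t ht => (hloc j).1 y t (hKs t ht).1 (hKs t ht).2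
  have hli : ∀ j, ∀ t ∈ K, Y124.LocInd (φ j) t := fun j t ht => (hloc j).2 t (hKs t ht).1 (hKs t ht).2
  obtain ⟨B1, C1, T1, hC1, hT1, H1⟩ := Y771.RP.mainX m n g d φ (fun _ => K) (fun _ => hK) (fun j y t ht => han j y t ht)
    (fun j t ht => hli j t ht) A ε hε
  obtain ⟨B2, C2, T2, H2⟩ := R349.Gen.shortG m n g d φ K hK han hli A ε hε
  refine ⟨max B1 B2, max C1 C2, max 2 (max T1 T2), fun F _ _ hF ι ξ T hT X hX => ?_⟩
  have hT2 : 2 ≤ T := (le_max_left _ _).trans hT
  have hTT1 : T1 ≤ T := ((le_max_left _ _).trans (le_max_right _ _)).trans hT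
  have hTT2 : T2 ≤ T := ((le_max_right _ _).trans (le_max_right _ _)).trans hT
  have hT1' : 1 ≤ T := by linarith
  have hT0 : 0 < T := by linarith
  have hfinX : {x : Fin n → F | ∀ j, x j ∈ X j}.Finite := by
    refine (Finset.finite_toSet (Fintype.piFinset X)).subset fun x hx => ?_
    rw [Finset.mem_coe, Fintype.mem_piFinset]
    exact hx
  have hval : ∀ x : Fin n → F, (fun z : Fin n × Fin r => M (l z.1 z.2) (f z.1 z.2) (ι (x z.1))) =
      fun z : Fin n × Fin r => φ z.1 z.2 (ι (x z.1)) := by
    intro x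
    funext z
    rw [hM]
  have hS : 0 ≤ ∑ j, ∏ i ∈ Finset.univ.erase j, ((X i).card : ℝ) :=
    Finset.sum_nonneg fun j _ => Finset.prod_nonneg fun i _ => Nat.cast_nonneg _
  have hMg : Y124.MgR X = ∑ j, ∏ i ∈ Finset.univ.erase j, ((X i).card : ℝ) := by
    unfold Y124.MgR
    refine Finset.sum_congr rfl fun j _ => ?_
    rw [← Finset.mul_prod_erase Finset.univ _ (Finset.mem_univ j), if_pos rfl, one_mul]
    refine Finset.prod_congr rfl fun i hi => ?_
    rw [if_neg (Finset.ne_of_mem_erase hi)]
  constructor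
  · have h1 := H1 F hF ι ξ T hTT1 X (fun j x hx => ⟨(hX j x hx).1, (hX j x hx).2⟩)
    rw [hMg] at h1
    refine le_trans ?_ (h1.trans (mul_le_mul_of_nonneg_right (mul_le_mul_of_nonneg_right (le_max_left _ _)
      (Real.rpow_nonneg hT0.le _)) hS))
    unfold bad
    refine Nat.cast_le.2 (Set.ncard_le_ncard ?_ (hfinX.subset fun x hx => hx.2))
    rintro x ⟨hx, hb⟩
    rw [hval] at hb
    unfold Good at hb
    push Not at hb
    obtain ⟨P, ⟨hP1, hP2⟩, s, hs⟩ := hb
    have hle : T ^ (-(max B1 B2)) ≤ T ^ (-B1) := Real.rpow_le_rpow_of_exponent_le hT1' (neg_le_neg (le_max_left _ _))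
    refine ⟨⟨fun j => ⟨(hX j _ (hx j)).1, (hX j _ (hx j)).2⟩, P, hP1, hP2, s, ?_, ?_⟩, hx⟩
    · intro h0
      rw [h0, norm_zero, mul_zero] at hs
      exact absurd hs (not_lt.2 (norm_nonneg _))
    · exact hs.le.trans (mul_le_mul_of_nonneg_right hle (norm_nonneg _))
  · intro hdiam
    have h1 := (H2 F hF ι ξ T hTT2 X (fun j x hx => ⟨(hX j x hx).1, (hX j x hx).2⟩) hdiam).1
    refine le_trans ?_ (h1.trans (mul_le_mul_of_nonneg_right (le_max_right _ _) hS))
    unfold bad
    refine Nat.cast_le.2 (Set.ncard_le_ncard ?_ (hfinX.subset fun x hx => hx.1))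
    rintro x ⟨hx, hb⟩
    refine ⟨hx, fun hg => hb ?_⟩
    rw [hval]
    intro P hP s
    refine le_trans ?_ (hg.1 P hP s)
    exact mul_le_mul_of_nonneg_right (Real.rpow_le_rpow_of_exponent_le hT1' (neg_le_neg (le_max_right _ _)))
      (norm_nonneg _)

end Pool.Agent.Results.MP_1eadae_ag.MellinTransforms
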