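import Mathlib
import Pool.Agent.W5h65.EE.HypG

/-!
# Products of logarithms, powers of periods, and even zeta values
-/

set_option autoImplicit false

namespace Pool.Agent.Results.MP_1eadae_ag.ProductsOfLogarithms

open Module Complex

/-- the field of algebraic numbers (the algebraic closure of `ℚ` in `ℂ`) -/
noncomputable abbrev Qbar : IntermediateField ℚ ℂ := algebraicClosure ℚ ℂ

/-- linear combinations, with algebraic coefficients, of `1` and of logarithms of algebraic
numbers -/
noncomputable def LinForms : Submodule Qbar ℂ :=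
  Submodule.span Qbar ({1} ∪ {z : ℂ | IsAlgebraic ℚ (Complex.exp z)})

/-- linear combinations, with algebraic coefficients, of the products `a_i b_j` -/
noncomputable def ProdSpan {d l : ℕ} (a : Fin d → ℂ) (b : Fin l → ℂ) : Submodule Qbar ℂ :=
  Submodule.span Qbar {z : ℂ | ∃ i j, z = a i * b j}

/-- linear combinations, with algebraic coefficients, of `1, ξ, …, ξ ^ N` -/
noncomputable def PowSpan (ξ : ℂ) (N : ℕ) : Submodule Qbar ℂ :=
  Submodule.span Qbar {z : ℂ | ∃ j : ℕ, j ≤ N ∧ z = ξ ^ j}

/-- linear combinations, with algebraic coefficients, of `ζ(0) = -1/2, ζ(2), …, ζ(2N)` -/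
noncomputable def EvenZetaSpan (N : ℕ) : Submodule Qbar ℂ :=
  Submodule.span Qbar {z : ℂ | ∃ j : ℕ, j ≤ N ∧ z = riemannZeta (2 * j)}

/-- the dimension over the field of algebraic numbers of a space `V` of complex numbers -/
noncomputable def dim (V : Submodule Qbar ℂ) : ℕ := finrank Qbar V

/-- the dimension of the image of `V` modulo `LinForms` -/
noncomputable def dimMod (V : Submodule Qbar ℂ) : ℕ := finrank Qbar (V.map LinForms.mkQ)

/-- the numbers `a_i` are linearly independent over the field of algebraic numbers -/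
def Indep {n : ℕ} (a : Fin n → ℂ) : Prop := LinearIndependent Qbar a

/-- the numbers `1, a_1, …, a_n` are linearly independent over the field of algebraic numbers -/
def IndepOne {n : ℕ} (a : Fin n → ℂ) : Prop := Indep (Fin.cons 1 a : Fin (n + 1) → ℂ)

theorem result :
    -- products of `d` arbitrary complex numbers with `l` linear forms in logarithms, their span
    -- and their span modulo linear forms in logarithms
    (∀ (d l : ℕ) (a : Fin d → ℂ) (lam : Fin l → ℂ), Indep a → Indep lam →
      (∀ j, lam j ∈ LinForms) → d * (l + 1) ≤ dim (ProdSpan a lam) + d ^ 2) ∧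
    (∀ (d l : ℕ) (a : Fin d → ℂ) (lam : Fin l → ℂ), IndepOne a → Indep lam →
      (∀ j, lam j ∈ LinForms) → d * l ≤ dimMod (ProdSpan a lam) + (d + 1) * d) ∧
    -- products of `l` linear forms in logarithms
    (∀ (l : ℕ) (lam : Fin l → ℂ), Indep lam → (∀ j, lam j ∈ LinForms) →
      (l + 1) ^ 2 ≤ 4 * dim (ProdSpan lam lam) + 1) ∧
    (∀ (l : ℕ) (lam : Fin l → ℂ), IndepOne lam → (∀ j, lam j ∈ LinForms) →
      l ^ 2 ≤ 4 * dimMod (ProdSpan lam lam) + 2 * l) ∧
    -- powers of a transcendental number, and even zeta values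
    (∀ ξ : ℂ, Transcendental ℚ ξ → ∀ N : ℕ, dim (PowSpan ξ N ⊓ LinForms) ^ 2 ≤ 4 * N + 1) ∧
    (∀ N : ℕ, dim (EvenZetaSpan N ⊓ LinForms) ^ 2 ≤ 4 * N + 1) := by
  have hfin : ∀ (d l : ℕ) (a : Fin d → ℂ) (b : Fin l → ℂ),
      FiniteDimensional Qbar (ProdSpan a b) := by
    intro d l a b
    apply FiniteDimensional.span_of_finite
    have : {z : ℂ | ∃ i j, z = a i * b j} = Set.range (fun p : Fin d × Fin l => a p.1 * b p.2) := by
      ext z
      constructor
      · rintro ⟨i, j, rfl⟩; exact ⟨(i, j), rfl⟩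
      · rintro ⟨p, rfl⟩; exact ⟨p.1, p.2, rfl⟩
    rw [this]
    exact Set.finite_range _
  refine ⟨fun d l a lam ha hl hL => ?_, fun d l a lam ha hl hL => ?_, fun l lam hl hL => ?_,
    fun l lam hl hL => ?_, fun ξ hξ N => ?_, fun N => ?_⟩
  · have := hfin d l a lam
    exact Pool.Agent.W5h65.EE.Hyp.prod_dim d l a ha lam hl hL (ProdSpan a lam)
      (fun i j => Submodule.subset_span ⟨i, j, rfl⟩)
  · have := hfin d l a lam
    exact Pool.Agent.W5h65.EE.Hyp.prod_mod d l a ha lam hl hL
      ((ProdSpan a lam).map Pool.Agent.H301R2.SSE.Lt.mkQ)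
      (fun i j => Submodule.mem_map_of_mem (Submodule.subset_span ⟨i, j, rfl⟩))
  · exact Pool.Agent.W5h65.EE.Hyp.quad_count lam hl hL
  · exact Pool.Agent.W5h65.EE.Hyp.quad_mod lam hl hL
  · exact Pool.Agent.W5h65.EE.Hyp.pow_count hξ N _ le_rfl
  · exact Pool.Agent.W5h65.EE.Hyp.zeta_count N

end Pool.Agent.Results.MP_1eadae_ag.ProductsOfLogarithms
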